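import Pool.Agent.Q283.PQ.Stm
import Pool.Agent.Q53.CF.GS1

/-!
# From a 2-adic relation to a point
-/

set_option autoImplicit false

namespace Pool.Agent.Q283.PQ

theorem fsa (h : Pool.Agent.Q7.CF.S_GS1) : S_FSA := by
  intro M _ hM ι N _ loc r P hP a ha hrel
  have : Fact (Nat.Prime 2) := ⟨Nat.prime_two⟩
  have h1 := h 2 M hM (nsmulAddMonoidHom 2) (AddMonoidHom.id M)
    (fun x => ⟨by simp, by simp, x, by simp⟩) ι N (fun v => nsmulAddMonoidHom 2) (fun v => AddMonoidHom.id (N v)) loc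
    (fun v x => by simp) (fun v x => by simp) r P hP a ha (fun v n => by
      obtain ⟨m, hm, R, hR⟩ := hrel v n
      exact ⟨m, fun i => by simpa using hm i, R, hR⟩)
  obtain ⟨Q, hQ1, hQ2⟩ := h1
  exact ⟨Q, fun x τ hτ => by simpa using hQ1 x τ hτ, fun v => by
    obtain ⟨x, τ, hτ, hx⟩ := hQ2 v
    exact ⟨x, τ, hτ, by simpa using hx⟩⟩

theorem t_FSA : S_FSA := fsa Pool.Agent.Q53.CF.gs1

end Pool.Agent.Q283.PQ
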