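import Pool.Agent.Q283.PQ.Stm
import Pool.Agent.Q283.FG.MainA

/-!
# Project PQ: the main theorem
-/

set_option autoImplicit false

namespace Pool.Agent.Q283.PQ

open NumberField IsDedekindDomain Filter Topology Finset WeierstrassCurve Module
open Pool.Agent.Q283.LQ (Sm Box Nest nS)
open Pool.Agent.Q7.LK
open Pool.Agent.TH841.SH.D (Coch Pt act Gal)
open Pool.Agent.Q283.FT (U2 om crv Rt twi df Cov HasN2 AX Gd LocP Dcl twi_rt)
open Pool.Agent.Q283.FG (Cx tc NoFour Exc Nr Bs Hb FR RX TX SR CondP LocR Mem Frm Ens fr_iff)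
open scoped Classical

theorem noFour_twi {F : Type} [Field F] {e : Fin 3 → F} (h : NoFour e) {D : F} (hD : D ≠ 0) : NoFour (twi D e) := by
  have hdf : ∀ l : Fin 3, df (twi D e) l = D * df e l := by
    intro l
    fin_cases l
    · show D * e 1 - D * e 2 = D * (e 1 - e 2)
      ring
    · show D * e 0 - D * e 2 = D * (e 0 - e 2)
      ring
    · show D * e 0 - D * e 1 = D * (e 0 - e 1)
      ring
  have hsq : ∀ a b : F, b = D ^ 2 * a → IsPow 2 b → IsPow 2 a := by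
    rintro a b hb ⟨s, hs⟩
    refine ⟨s / D, ?_⟩
    rw [div_pow, eq_div_iff (pow_ne_zero 2 hD), ← hs, hb]
    ring
  obtain ⟨h1, h2, h3⟩ := h
  refine ⟨fun hc => h1 (hsq _ _ ?_ hc), fun hc => h2 (hsq _ _ ?_ hc), fun hc => h3 (hsq _ _ ?_ hc)⟩ <;>
    rw [hdf, hdf] <;> ring

/-- **The main theorem of the project.** -/
def S_PMAIN : Prop := ∀ (F : Type) [Field F] [NumberField F] (e : Fin 3 → F), Rt e → NoFour e →
  ∃ y0 : ℕ, ∀ y, y0 ≤ y → ∀ D0 : F, D0 ≠ 0 →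
  ∀ S : Set (HeightOneSpectrum (𝓞 F)), (∀ v ∈ S, Dp 2 v) → ∀ ε : ℝ, 0 < ε → ∃ k0 : ℕ, ∀ k, k0 ≤ k → Nest k fun X =>
    (Ens y D0 X : Set (Fin k → HeightOneSpectrum (𝓞 F))).Finite ∧
    0 < ((Ens y D0 X : Set (Fin k → HeightOneSpectrum (𝓞 F))).ncard : ℝ) ∧
    (1 - 2 / 2 ^ (∑ᶠ v : {v : HeightOneSpectrum (𝓞 F) // v ∈ S}, dv 2 v.1) - ε) *
        ((Ens y D0 X : Set (Fin k → HeightOneSpectrum (𝓞 F))).ncard : ℝ) ≤
      ({q ∈ (Ens y D0 X : Set (Fin k → HeightOneSpectrum (𝓞 F))) | ∀ D, FR y D0 q D → Indep S (twi D e)}.ncard : ℝ)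

theorem pmain (hHIL : Pool.Agent.Q283.FG.S_HIL) (hA : S_PQA) (hB : S_PQB) (hI : S_IND) : S_PMAIN := by
  intro F _ _ e he h4
  have key : ∃ y0 : ℕ, ∀ y, y0 ≤ y → ∀ D0 : F, D0 ≠ 0 →
      ∀ S : Set (HeightOneSpectrum (𝓞 F)), (∀ v ∈ S, Dp 2 v) → ∀ ε : ℝ, 0 < ε → ∃ k0 : ℕ, ∀ k, k0 ≤ k → Nest k fun X =>
      (Box y X : Set (Fin k → HeightOneSpectrum (𝓞 F))).Finite ∧
      0 < ({q ∈ (Box y X : Set (Fin k → HeightOneSpectrum (𝓞 F))) | ∃ D, FR y D0 q D}.ncard : ℝ) ∧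
      ({q ∈ (Box y X : Set (Fin k → HeightOneSpectrum (𝓞 F))) | (∃ D, FR y D0 q D) ∧
        ¬ ∀ D, FR y D0 q D → HasN2 (SRS S (twi D e)) 4}.ncard : ℝ) ≤
      (2 / 2 ^ (∑ᶠ v : {v : HeightOneSpectrum (𝓞 F) // v ∈ S}, dv 2 v.1) + ε) *
        ({q ∈ (Box y X : Set (Fin k → HeightOneSpectrum (𝓞 F))) | ∃ D, FR y D0 q D}.ncard : ℝ) := by
    by_cases h : ∃ i : F, i ^ 2 = -1
    · obtain ⟨i, hi⟩ := h
      exact hB F i hi e he h4
    · have hζ := EN.prim_neg F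
      obtain ⟨t, s, ht⟩ := hHIL F (-1) hζ
      exact hA F (-1) hζ (fun x hx => h ⟨x, hx⟩) t s ht e he h4
  obtain ⟨y0, hy⟩ := key
  refine ⟨y0, fun y hyy D0 hD0 S hS ε hε => ?_⟩
  obtain ⟨k0, hk0⟩ := hy y hyy D0 hD0 S hS ε hε
  refine ⟨k0, fun k hk => Pool.Agent.Q7.LK.nest_mono k _ _ (fun X hX => ?_) (hk0 k hk)⟩
  obtain ⟨hfin, hpos, hbad⟩ := hX
  have hEfin : (Ens y D0 X).Finite := hfin.subset fun q hq => hq.1
  refine ⟨hEfin, hpos, ?_⟩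
  set bad : Set (Fin k → HeightOneSpectrum (𝓞 F)) := {q ∈ (Box y X : Set (Fin k → HeightOneSpectrum (𝓞 F))) |
    (∃ D, FR y D0 q D) ∧ ¬ ∀ D, FR y D0 q D → HasN2 (SRS S (twi D e)) 4} with hbd
  have hE : ({q ∈ (Box y X : Set (Fin k → HeightOneSpectrum (𝓞 F))) | ∃ D, FR y D0 q D} : Set _) = Ens y D0 X := rfl
  rw [hE] at hbad hpos
  have hsub : bad ⊆ Ens y D0 X := fun q hq => ⟨hq.1, hq.2.1⟩
  have hgood : Ens y D0 X \ bad ⊆ {q ∈ Ens y D0 X | ∀ D, FR y D0 q D → Indep S (twi D e)} := by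
    rintro q ⟨hq, hq2⟩
    refine ⟨hq, fun D hD => ?_⟩
    have h1 : ∀ D, FR y D0 q D → HasN2 (SRS S (twi D e)) 4 := by
      by_contra hc
      exact hq2 ⟨hq.1, hq.2, hc⟩
    have hD0' : D ≠ 0 := hD.1.ne
    exact hI F (twi D e) (twi_rt hD0' he) (noFour_twi h4 hD0') S (h1 D hD)
  have h2 : ((Ens y D0 X).ncard : ℝ) - (bad.ncard : ℝ) = ((Ens y D0 X \ bad).ncard : ℝ) := by
    have := Set.ncard_sdiff_add_ncard_of_subset hsub hEfin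
    rw [← this]
    push_cast
    ring
  have h3 : ((Ens y D0 X \ bad).ncard : ℝ) ≤
      ({q ∈ Ens y D0 X | ∀ D, FR y D0 q D → Indep S (twi D e)}.ncard : ℝ) := by
    exact_mod_cast Set.ncard_le_ncard hgood (hEfin.subset fun q hq => hq.1)
  rw [← h2] at h3
  refine le_trans ?_ h3
  rw [sub_mul, sub_mul, one_mul]
  rw [add_mul] at hbad
  linarith

end Pool.Agent.Q283.PQ
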