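import Pool.Agent.Q283.FG.All
import Pool.Agent.Q153.PQ.PRB
import Pool.Agent.Q265.PQ.YXX
import Pool.Agent.Q176.PQ.FMG
import Pool.Agent.Q153.PQ.TBS
import Pool.Agent.Q182.PQ.ATP
import Pool.Agent.Q153.PQ.FUS
import Pool.Agent.Q275.PQ.IND
import Pool.Agent.Q153.PQ.PQA
import Pool.Agent.Q121.PQ.PQB
import Pool.Agent.Q283.PQ.FSA
import Pool.Agent.Q283.PQ.Main
import Pool.Agent.Q181.PQ.TBI
import Pool.Agent.Q229.PQ.LSS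

/-!
# Project PQ: all parts together
-/

set_option autoImplicit false

namespace Pool.Agent.Q283.PQ

open Pool.Agent.Q7.LK (t_BAS t_CPL)

theorem t_PRB : S_PRB :=
  Pool.Agent.Q153.PQ.prb
theorem t_YXX : S_YXX :=
  Pool.Agent.Q265.PQ.yxx
theorem t_FMG : S_FMG :=
  Pool.Agent.Q176.PQ.fmg t_PRB t_YXX
theorem t_TBS : S_TBS :=
  Pool.Agent.Q153.PQ.TB.tbs t_FMG Pool.Agent.Q283.FT.t_LBS
theorem t_TBI : S_TBI :=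
  Pool.Agent.Q181.PQ.tbi t_FMG Pool.Agent.Q283.FT.t_LBS
theorem t_ATP : S_ATP :=
  Pool.Agent.Q182.PQ.atp Pool.Agent.Q283.FG.t_KUA Pool.Agent.Q283.FG.t_KUB Pool.Agent.Q283.FG.t_AXP t_BAS t_CPL
theorem t_LSS : S_LSS :=
  Pool.Agent.Q229.PQ.lss t_ATP Pool.Agent.Q283.FG.t_APX Pool.Agent.Q283.FG.t_IDE Pool.Agent.Q283.FG.t_LCP Pool.Agent.Q283.FG.t_RLC
    t_BAS
theorem t_FUS : S_FUS :=
  Pool.Agent.Q153.PQ.fus t_ATP Pool.Agent.Q283.FG.t_LCP Pool.Agent.Q283.FG.t_GDU Pool.Agent.Q283.FG.t_GDR Pool.Agent.Q283.FG.t_RLC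
    t_BAS
theorem t_IND : S_IND :=
  Pool.Agent.Q275.PQ.ind t_FSA Pool.Agent.Q283.FG.t_KUA Pool.Agent.Q283.FG.t_KUB Pool.Agent.Q283.FG.t_KUC Pool.Agent.Q283.FG.t_AXP
    Pool.Agent.Q283.FT.t_MWR
theorem t_PQA : S_PQA :=
  Pool.Agent.Q153.PQ.PA.pqa t_TBS t_LSS t_FUS t_ATP Pool.Agent.Q283.FG.t_TRF Pool.Agent.Q283.FG.t_BSE Pool.Agent.Q283.FG.t_G0
    Pool.Agent.Q283.FG.t_SXX Pool.Agent.Q283.FG.t_SBM Pool.Agent.Q283.FG.t_TRS Pool.Agent.Q283.FT.t_GDS Pool.Agent.Q283.FG.t_LOK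
    Pool.Agent.Q283.FG.t_DCE Pool.Agent.Q283.FG.t_LCP Pool.Agent.Q283.FG.t_RLC
theorem t_PQB : S_PQB :=
  Pool.Agent.Q121.PQ.pqb t_TBI t_LSS t_FUS t_ATP Pool.Agent.Q283.FT.t_G0 Pool.Agent.Q283.FT.t_SBM Pool.Agent.Q283.FT.t_LOK
    Pool.Agent.Q283.FT.t_TRS Pool.Agent.Q283.FT.t_SXX Pool.Agent.Q283.FT.t_DCE Pool.Agent.Q283.FT.t_GDS Pool.Agent.Q283.FT.t_LCP
    Pool.Agent.Q283.EN.t_TRF Pool.Agent.Q283.EN.t_BASE2 Pool.Agent.Q283.EN.t_LOC2 Pool.Agent.Q283.EN.t_HS22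

theorem t_PMAIN : S_PMAIN := pmain Pool.Agent.Q283.FG.t_HIL t_PQA t_PQB t_IND

end Pool.Agent.Q283.PQ
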