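import Pool.Agent.Q283.FG.Stm4

/-!
# Project PQ (helper283): the 2-adic closure of `E_D(F)` for the quadratic twists of elliptic curves with full 2-torsion, statements

GOAL (hard row MP_52423f_nt, free slot 4).  `F` ANY number field, `E : y² = ∏ (x - e j)` over `F` with full 2-torsion and without cyclic subgroup of order `4` over `F` (`FG.NoFour e`), `S` any set of places of `F` above `2`,
`N` the sum of the `[F_v : ℚ_2]`, `v ∈ S`.  For a share of at least `1 - 2^(1-N) - ε` of the twists `E_D` of every ensemble of project FG the points of `E_D(F)` which are independent over `ℤ` are independent over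
`ℤ_2` in the product of the `E_D(F_v)`, `v ∈ S` (`Indep`): an analogue of Leopoldt's conjecture.  (Compare project CE of helper7, `Pool/Agent/Q7/CE/Stm3.lean`, for the cubic twists.)

Proof.  A relation gives a point `Q ∈ E_D(F)`, not in `2 E_D(F)` + torsion, which is in `2 E_D(F_v)` + torsion for `v ∈ S` (`S_FSA`).  Its class is in the strict Selmer group `SRS S`, where the classes at the `v ∈ S` are those of
the torsion points of `E_D(F_v)`.  The classes in `SRS S` are the solutions of the equations of project FG with a subspace `𝓛'` of `𝓛` of index at least `2^N` (`S_LSS`), and the mean of the number of its elements is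
`4 + 8 / 2^N` (`S_FMG`: only a first moment).

Definitions not given here: `Pool/Agent/Q283/FT/Def2.lean`, `Pool/Agent/Q283/FG/Def.lean`.  The theorems of project FT are in `Pool/Agent/Q283/FT/All.lean` (`t_SXX`, ..), those of project FG in `Pool/Agent/Q283/FG/All.lean`
(landed soon).
-/

set_option autoImplicit false
set_option linter.unusedVariables false

namespace Pool.Agent.Q283.PQ

open NumberField IsDedekindDomain Filter Topology Finset WeierstrassCurve Module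
open Pool.Agent.Q283.LQ (Sm Box Nest nS)
open Pool.Agent.Q7.LK
open Pool.Agent.TH841.SH.D (Coch Pt act Gal)
open Pool.Agent.Q283.FT (U2 om crv Rt twi df Cov HasN2 AX Gd LocP Dcl opT dj nSel)
open Pool.Agent.Q283.FG (Cx tc NoFour Exc Nr Bs Hb FR RX TX SR CondP LocR Mem Frm opS djS nSelG gs)
open scoped Classical

/-! ## The first moment -/

/-- the tables of the symbols of different primes -/
abbrev Tt (k : ℕ) : Type := {x : Fin k × Fin k // x.1 < x.2} → ZMod 2

/-- the symbols: random ones and a fixed part `A` -/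
def Nt {k : ℕ} (A : Fin k → Fin k → ZMod 2) (t : Tt k) (p q : Fin k) : ZMod 2 :=
  (if h : p < q then t ⟨(p, q), h⟩ else if h : q < p then t ⟨(q, p), h⟩ else 0) + A p q

/-- the solutions of the system for the table `t`, with labels `φ`, operators `T`, class in `𝓛`, which are not constant -/
def NonC {f k : ℕ} (T : (Fin f → ZMod 2) →ₗ[ZMod 2] U2 →ₗ[ZMod 2] U2) (𝓛 : Submodule (ZMod 2) ((Fin f → U2) × (Fin f → U2)))
    (φ : Fin k → Fin f → ZMod 2) (A : Fin k → Fin k → ZMod 2) (t : Tt k) : Set ((Fin f → U2) × (Fin k → U2)) :=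
  {z | (z.1, fun l => ∑ p, φ p l • z.2 p) ∈ 𝓛 ∧
    (∀ p, ∑ q, Nt A t p q • (z.2 q + z.2 p) + T (φ p) (z.2 p) + ∑ l, φ p l • z.1 l = 0) ∧ ∃ i j, z.2 i ≠ z.2 j}

/-- JOB PRB (pure linear algebra). The probability of one solution.
Proof.  The map `Λ : t ↦ (∑ q, Nt 0 t p q • (x q + x p))_p` is linear, `∑ p, om (W p) (Λ t p) = ∑_(p < q) t (p, q) om (W p + W q) (x p + x q)` (`om` is symmetric), so the `W` of the statement are the annihilator `Y` of the image of `Λ` for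
the nondegenerate form `∑ p, om (W p) (z p)` on `Fin k → U2`: `#(im Λ) * #Y = 4^k`.  The set of the `t` of the first statement is empty or a coset of `ker Λ`, `#(ker Λ) * #(im Λ) = #(Tt k)`.  Second statement: pair the equations with `W`. -/
def S_PRB : Prop := ∀ (k : ℕ) (A : Fin k → Fin k → ZMod 2) (x b : Fin k → U2),
  (univ.filter fun t : Tt k => ∀ p, ∑ q, Nt A t p q • (x q + x p) + b p = 0).card * 4 ^ k ≤
    Fintype.card (Tt k) * (univ.filter fun W : Fin k → U2 => ∀ i j, om (W i + W j) (x i + x j) = 0).card ∧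
  ((∃ t : Tt k, ∀ p, ∑ q, Nt A t p q • (x q + x p) + b p = 0) →
    ∀ W : Fin k → U2, (∀ i j, om (W i + W j) (x i + x j) = 0) → ∑ p, om (W p) (b p + ∑ q, A p q • (x q + x p)) = 0)

/-- JOB YXX (pure linear algebra). The number of the `W` which are not linked with `x`.
Proof.  Let the differences `x i + x j` take the values `v ≠ v'`, both not `0`; then there are indices with `x i + x j = v`, `x i + x l = v'` (or `x j + x l = v'`), and `W i + W m` is determined by the conditions and by two of the values: the maps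
`W ↦ W i + W j`..; in short: `Y` is a subspace; after subtracting the constants (`4`) `W i = 0`; `W m ∈ {0, x m + x i}` for all `m` (`om (W m) (x m + x i) = 0`), if `x m = x i` compare with an index `j` such that
`x j ≠ x i` and with one of the other value; and `W m = x m + x i`, `W l = 0` with `x m + x i`, `x l + x i` different and not `0` contradicts the condition for `(m, l)`: so `W = 0` or `W = x + x i`, and `#Y ≤ 8`.
If all the differences are in `{0, v}`: all `W i + W j` are in `{0, v}` (if `x i ≠ x j` from the condition, otherwise by a third index), so `#Y ≤ 4 * 2^k / 2`; and `W = (ζ i • v)_i` is in `Y` for all `ζ`, as `om v v = 0`. -/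
def S_YXX : Prop := ∀ (k : ℕ) (x : Fin k → U2), (∃ i j, x i ≠ x j) →
  ((∀ v : U2, v ≠ 0 → ∃ i j, x i + x j ≠ 0 ∧ x i + x j ≠ v) →
    (univ.filter fun W : Fin k → U2 => ∀ i j, om (W i + W j) (x i + x j) = 0).card ≤ 8) ∧
  ∀ v : U2, v ≠ 0 → (∀ i j, x i + x j = 0 ∨ x i + x j = v) →
    (univ.filter fun W : Fin k → U2 => ∀ i j, om (W i + W j) (x i + x j) = 0).card ≤ 2 * 2 ^ k ∧
    ∀ ζ : Fin k → ZMod 2, ∀ i j, om (ζ i • v + ζ j • v) (x i + x j) = 0

/-- JOB FMG (uses `S_PRB`, `S_YXX`). The first moment of the number of the solutions which are not constant.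
Proof.  Exchange the sums: `∑_t #NonC = ∑_z #{t | ..}` over the `z = (δ, x)` with class in `𝓛` and `x` not constant.  (1) The differences of `x` are not all in some `{0, v}`: each `z` contributes at most `8 / 4^k * #(Tt k)` (`S_PRB`, `S_YXX`), and the
number of the `z` with class in `𝓛` is `#𝓛 * 4^(k - f) ≤ 4^k / 2^d` (`x ↦ (∑ p, φ p l • x p)_l` is surjective, as all labels occur: `1 ≤ R`).  (2) All differences are in `{0, v}`, `v ≠ 0` one of the three vectors; if `z` contributes at all, then (second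
part of `S_PRB` with `W = (ζ i • v)_i`, all `ζ`) `om v (T (φ p) (x p) + ∑ l, φ p l • δ l) = 0` for all `p` (`om v` of the term with `A` vanishes since `x q + x p ∈ {0, v}`).  Let `χ` be such that `om v (T χ v) ≠ 0`: for the at
least `R` indices `p` with `φ p = χ` this determines `x p` if `δ` and `x i₀` (one fixed index) are given.  So there are at most `4^f * 4 * 2^(k - R)` such `z` for each `v`, each contributes at most `2 * 2^k / 4^k * #(Tt k)`: together at most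
`24 * 4^f / 2^R * #(Tt k)`; choose `R` with `24 * 4^f / 2^R ≤ ε`. -/
def S_FMG : Prop := ∀ (f : ℕ) (T : (Fin f → ZMod 2) →ₗ[ZMod 2] U2 →ₗ[ZMod 2] U2), (∀ v : U2, v ≠ 0 → ∃ φ, om v (T φ v) ≠ 0) →
  ∀ (d : ℕ) (𝓛 : Submodule (ZMod 2) ((Fin f → U2) × (Fin f → U2))), Nat.card 𝓛 * 2 ^ d ≤ 4 ^ f → ∀ ε : ℝ, 0 < ε →
  ∃ R : ℕ, 1 ≤ R ∧ ∀ (k : ℕ) (φ : Fin k → Fin f → ZMod 2) (A : Fin k → Fin k → ZMod 2),
    (∀ χ, R ≤ (univ.filter fun i => φ i = χ).card) →
    ∑ t : Tt k, ((NonC T 𝓛 φ A t).ncard : ℝ) ≤ (8 / 2 ^ d + ε) * (Fintype.card (Tt k) : ℝ)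

/-- JOB TBS (uses `S_FMG`, `FT.S_LBS` (proved `Pool.Agent.Q214.FT.lbs`)). Few tables have more than the four solutions of the torsion: number fields without `i`.
Proof.  `om v (opS t₀ c w φ v)` is `dot φ (c 0 + c 2) + φ t₀` for `v = (1, 0)`, `dot φ (c 1 + c 2)` for `(0, 1)`, `dot φ (c 0 + c 1)` for `(1, 1)`: not identically `0` by the hypotheses.  Fixed labels with `R` indices of every label, `∑ φ = ρ`: `Sel D (NG t₀ (φ, t)) φ` is the
set of the `z` with the equations of `NonC` (`A p q = φ p t₀ * φ q t₀` for `p < q`, `0` for `q < p`; the diagonal does not matter; see `TBF`, `Pool/Agent/Q31/FG/TBF.lean`); its constant elements `x p = a` are exactly the four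
`δ l = opS (Pi.single l 1) a` (the unit vectors occur as labels; in `𝓛` by the hypothesis); so `nSelG = 4 + #NonC`, a power of `2` (a subspace): if it is not `4`, then `#NonC ≥ 4`.  So at most `(2 / 2^d + ε / 4) #(Tt k)` of the `t` are bad (`S_FMG`).  The
label vectors without `R` indices of every label are few (`FT.S_LBS`); compare `TBL`, `Pool/Agent/Q252/FG/TBL.lean`. -/
def S_TBS : Prop := ∀ (f : ℕ) (t₀ : Fin f) (c : Fin 3 → Fin f → ZMod 2) (w : Fin f → ZMod 2)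
  (𝓛 : Submodule (ZMod 2) ((Fin f → U2) × (Fin f → U2))) (ρ : Fin f → ZMod 2) (d : ℕ),
  c 1 ≠ c 2 → c 0 ≠ c 1 → c 0 + c 2 ≠ Pi.single t₀ 1 → Nat.card 𝓛 * 2 ^ d ≤ 4 ^ f →
  (∀ x : U2, ((fun t => opS t₀ c w (Pi.single t 1) x), (fun t => ρ t • x)) ∈ 𝓛) → ∀ ε : ℝ, 0 < ε → ∃ k0 : ℕ, ∀ k, k0 ≤ k →
    ((univ.filter fun τ : Tab 2 f k => ∑ j, (1 : ZMod 2) • τ.1 j = ρ ∧ nSelG (djS t₀ c w 𝓛) τ ≠ 4).card : ℝ) ≤
      (2 / 2 ^ d + ε) * ((univ.filter fun τ : Tab 2 f k => ∑ j, (1 : ZMod 2) • τ.1 j = ρ).card : ℝ)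

/-- JOB TBI (uses `S_FMG`, `FT.S_LBS`). The same for number fields which contain `i`.
Proof.  As `S_TBS`; `om v (opT c w φ v)` is `dot φ (c 0 + c 2)`, `dot φ (c 1 + c 2)`, `dot φ (c 0 + c 1)`, `A = 0`; compare `TBF`, `TBL` in `Pool/Agent/Q96/FT`. -/
def S_TBI : Prop := ∀ (f : ℕ) (t₀ : Fin f) (c : Fin 3 → Fin f → ZMod 2) (w : Fin f → ZMod 2)
  (𝓛 : Submodule (ZMod 2) ((Fin f → U2) × (Fin f → U2))) (ρ : Fin f → ZMod 2) (d : ℕ),
  c 1 ≠ c 2 → c 0 ≠ c 1 → c 0 ≠ c 2 → Nat.card 𝓛 * 2 ^ d ≤ 4 ^ f →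
  (∀ x : U2, ((fun t => opT c w (Pi.single t 1) x), (fun t => ρ t • x)) ∈ 𝓛) → ∀ ε : ℝ, 0 < ε → ∃ k0 : ℕ, ∀ k, k0 ≤ k →
    ((univ.filter fun τ : Tab 2 f k => ∑ j, (1 : ZMod 2) • τ.1 j = ρ ∧ nSel (dj t₀ c w 𝓛) τ ≠ 4).card : ℝ) ≤
      (2 / 2 ^ d + ε) * ((univ.filter fun τ : Tab 2 f k => ∑ j, (1 : ZMod 2) • τ.1 j = ρ).card : ℝ)

/-! ## Curves -/

section F

variable {F : Type} [Field F] [NumberField F]

/-- the pair `(a, b)` is the class of a torsion point over the completion at `v` -/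
def ATo (v : HeightOneSpectrum (𝓞 F)) (e : Fin 3 → F) (a b : F) : Prop :=
  a ≠ 0 ∧ b ≠ 0 ∧ ∃ P : Pt (crv e) (v.adicCompletion F), IsOfFinAddOrder P ∧
    Cx e (v.adicCompletion F) P (algebraMap F (v.adicCompletion F) a) (algebraMap F (v.adicCompletion F) b)

/-- the local conditions: at the places of `S` the classes of the torsion points, at the others all classes -/
def AS (S : Set (HeightOneSpectrum (𝓞 F))) (v : HeightOneSpectrum (𝓞 F)) (e : Fin 3 → F) (a b : F) : Prop :=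
  (v ∈ S → ATo v e a b) ∧ (v ∉ S → AX v e a b)

/-- the strict Selmer group -/
def SRS (S : Set (HeightOneSpectrum (𝓞 F))) (e : Fin 3 → F) (a b : F) : Prop :=
  (∀ v : HeightOneSpectrum (𝓞 F), AS S v e a b) ∧ ∀ φ : F →+* ℝ, RX φ e a b

/-- points of `E(F)` which are independent over `ℤ` are independent over `ℤ_2` in the product of the `E(F_v)`, `v ∈ S`: if for all `n` the combinations
`∑ m_i P_i` with integers `m_i ≡ a_i` modulo `2^n` are divisible by `2^n` in `E(F_v)`, for all `v ∈ S`, then `a = 0` -/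
def Indep (S : Set (HeightOneSpectrum (𝓞 F))) (e : Fin 3 → F) : Prop :=
  ∀ (r : ℕ) (P : Fin r → Pt (crv e) F), (∀ c : Fin r → ℤ, IsOfFinAddOrder (∑ i, c i • P i) → c = 0) →
  ∀ a : Fin r → ℤ_[2], (∀ v ∈ S, ∀ n : ℕ, ∃ m : Fin r → ℤ, (∀ i, (2 : ℤ_[2]) ^ n ∣ (m i : ℤ_[2]) - a i) ∧
    ∃ R : Pt (crv e) (v.adicCompletion F), ∑ i, m i • act (crv e) (Algebra.ofId F (v.adicCompletion F)) (P i) = (2 ^ n : ℕ) • R) →
  a = 0

end F

/-- JOB ATP (uses `FG.S_KUA`, `FG.S_KUB`, `FG.S_AXP`, `LK.S_BAS`, `LK.S_CPL`). Properties of the classes of the torsion points.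
Proof.  `K = v.adicCompletion F`; `Lpw 2 v n` iff `n` is a nonzero square in `K` (`LK.S_CPL`).  (1) `S_KUB`, sums of torsion points.  (2) `S_KUA` (3).  (3) `n = ν²` in `K`: `(x, y) ↦ (n x, n ν y)` is an isomorphism from `E(K)` to
`E_n(K)` (roots `n e j`) which maps classes to classes up to the square `n`; a homomorphism: see the isomorphism between a curve and its twist in `Pool/Agent/Q176/FT/RKQ.lean` or `Pool/Agent/Q192/FT/LCP.lean`.  (4) the points `0`, `(e l, 0)` (`S_KUA` (4), (5)) times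
squares.  (5) `S_AXP`.  (6) let `P_b` be torsion points of class `b`, `b ∈ B`; `P_b - P_b' ≠ 2 R` for `b ≠ b'` (`S_KUA`, `S_KUB`); the subgroup `G` which they generate is finite (finitely generated, torsion), and
`#(G / 2 G) = #G[2] ≤ 4` (a point killed by `2` is `0` or has `y = 0`, `x = e l`). -/
def S_ATP : Prop := ∀ (F : Type) [Field F] [NumberField F] (e : Fin 3 → F), Rt e → ∀ v : HeightOneSpectrum (𝓞 F),
  (∀ a b a' b' : F, ATo v e a b → ATo v e a' b' → ATo v e (a * a') (b * b')) ∧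
  (∀ a b m m' : F, Lpw 2 v m → Lpw 2 v m' → ATo v e a b → ATo v e (a * m) (b * m')) ∧
  (∀ a b n : F, Lpw 2 v n → ATo v e a b → ATo v (twi n e) a b) ∧
  (∀ a b : F, TX v e a b → ATo v e a b) ∧
  (∀ a b : F, ATo v e a b → AX v e a b) ∧
  ∀ B : Finset (F × F), (∀ b ∈ B, ATo v e b.1 b.2) →
    (∀ b ∈ B, ∀ b' ∈ B, b ≠ b' → ¬ (Lpw 2 v (b.1 / b'.1) ∧ Lpw 2 v (b.2 / b'.2))) → B.card ≤ 4

/-- JOB LSS (uses `S_ATP`, `FG.S_APX`, `FG.S_IDE`, `FG.S_LCP`, `FG.S_RLC`, `LK.S_BAS`; compare `CGE`, `Pool/Agent/Q184/FG/CGE.lean`). The index of the subspace of the strict conditions.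
Proof.  `𝓛' ≤ 𝓛`: every pair of coordinates belongs to `a = mon r x.1 * mon u x.2`, `b` the same (the product with itself is a square, `Nr`), and `AS S v e a b → AX v e a b` (`S_ATP` (5)).  Index: `v ∈ S` is small (`2 ≤ y`).  From `S_IDE` `2^(dv + 2)`
pairs in `AX v e`, pairwise inequivalent; every class modulo `ATo v e` contains at most `4` of them (`S_ATP` (6), divide), so there are `2^(dv 2 v)` pairs `C v` in `AX v e`, pairwise inequivalent modulo `ATo v e`.  For a family `c ∈ ∏_(v ∈ S) C v` there is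
`(a, b) ∈ F × F` with `a / c_v.1`, `b / c_v.2` close to `1` at `v ∈ S`, `a`, `b` close to `1` at the other small places and positive (`S_APX`; close to `1` is a local square, `S_BAS`): its class is in `𝓛`; different families give classes which are
different modulo `𝓛'` (divide).  `S` is finite. -/
def S_LSS : Prop := ∀ (F : Type) [Field F] [NumberField F] (ζ : F), IsPrimitiveRoot ζ 2 → ∀ (y f : ℕ) (u r : Fin f → F)
  (π : HeightOneSpectrum (𝓞 F) → F) (g : (Fin f → ZMod 2) → (Fin f → ZMod 2) → ZMod 2), Bs ζ y f u r π g →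
  {v : HeightOneSpectrum (𝓞 F) | Sm y v}.Finite → ∀ e : Fin 3 → F, Rt e →
  ∀ S : Set (HeightOneSpectrum (𝓞 F)), (∀ v ∈ S, Dp 2 v) →
  ∀ 𝓛 𝓛' : Submodule (ZMod 2) ((Fin f → U2) × (Fin f → U2)), Mem y u r (fun v => AX v e) (fun φ => RX φ e) 𝓛 →
  Mem y u r (fun v => AS S v e) (fun φ => RX φ e) 𝓛' →
  𝓛' ≤ 𝓛 ∧ Nat.card 𝓛' * 2 ^ (∑ᶠ v : {v : HeightOneSpectrum (𝓞 F) // v ∈ S}, dv 2 v.1) ≤ Nat.card 𝓛

/-- JOB FUS (uses `S_ATP`, `FG.S_LCP`, `FG.S_GDU`, `FG.S_GDR`, `FG.S_RLC`, `LK.S_BAS`; template: `Pool.Agent.Q224.FG.ful` in `Pool/Agent/Q224/FG/FUL.lean`). The strict Selmer group and the conditions of the tables.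
Proof.  The same; the places of `S` are small (`2 ≤ y`), there `S_ATP` (3) for `D / D0` and its inverse. -/
def S_FUS : Prop := ∀ (F : Type) [Field F] [NumberField F] (e : Fin 3 → F), Rt e →
  ∀ y : ℕ, 2 ≤ y → (∀ v : HeightOneSpectrum (𝓞 F), ¬ Sm y v → Gd v e) →
  ∀ S : Set (HeightOneSpectrum (𝓞 F)), (∀ v ∈ S, Dp 2 v) → ∀ D0 D : F, D0 ≠ 0 → D ≠ 0 → Nr y (D / D0) → ∀ a b : F,
    (SRS S (twi D e) a b ↔ CondP y (fun v => AS S v (twi D0 e)) (fun φ => RX φ (twi D0 e)) e D a b)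

/-- JOB FSA (pure algebra; template: `Pool.Agent.Q251.CE.fs1` in `Pool/Agent/Q251/CE/FS1.lean` for `Q7.CE.S_FS1`, with `3`, `θ`). From a relation to a point.
Proof.  The same with `2` in place of `3` and `θ = (2 • ·)`, `θ' = id` (`θ' θ = 2`, `θ θ x = 2 • (2 • x)`). -/
def S_FSA : Prop := ∀ (M : Type) [AddCommGroup M], Module.Finite ℤ M →
  ∀ (ι : Type) (N : ι → Type) [∀ v, AddCommGroup (N v)] (loc : ∀ v, M →+ N v) (r : ℕ) (P : Fin r → M),
  (∀ c : Fin r → ℤ, IsOfFinAddOrder (∑ i, c i • P i) → c = 0) →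
  ∀ a : Fin r → ℤ_[2], a ≠ 0 → (∀ v, ∀ n : ℕ, ∃ m : Fin r → ℤ, (∀ i, (2 : ℤ_[2]) ^ n ∣ (m i : ℤ_[2]) - a i) ∧
    ∃ R : N v, ∑ i, m i • loc v (P i) = (2 ^ n : ℕ) • R) →
  ∃ Q : M, (∀ x τ, IsOfFinAddOrder τ → Q ≠ (2 : ℕ) • x + τ) ∧ ∀ v, ∃ x τ, IsOfFinAddOrder τ ∧ loc v Q = (2 : ℕ) • x + τ

/-- JOB IND (uses `S_FSA`, `FG.S_KUA`, `FG.S_KUB`, `FG.S_KUC`, `FG.S_AXP`, `FT.S_MWR` (proved: `Pool.Agent.Q283.FT.t_MWR` in `FT/All.lean`, finite generation); compare `Pool/Agent/Q275/CE/FS2.lean`). Independence.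
Proof.  If `Indep S e` fails, `S_FSA` (`M = E(F)`, `N v = E(F_v)`, `v ∈ S`) gives `Q`; let `(a, b)` be its class over `F` (`S_KUA`).  `SRS S e a b`: at `v ∈ S`: `loc Q = 2 x + τ`, so the class of `τ` is `(a, b)` up to squares (`S_KUB`, `S_KUA`;
`Cx` is functorial: immediate from the definition); at the other `v` and at the real places `S_AXP` over `F_v` and over `ℝ` (`RX φ e a b` is `Cov e ℝ a b` for the algebra given by `φ`) and the image of `Q`.  The four pairs `(1, 1)`, `tc e l`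
are the classes of `0`, `(e l, 0)`, in `SRS S e`, and pairwise inequivalent modulo squares by `NoFour`.  So by `HasN2 _ 4` every class of `SRS S e` is equivalent to one of them; `Q - T` has a trivial class for a `T` of order dividing `2`, so it is
`2 R` (`S_KUC`): contradiction. -/
def S_IND : Prop := ∀ (F : Type) [Field F] [NumberField F] (e : Fin 3 → F), Rt e → NoFour e →
  ∀ S : Set (HeightOneSpectrum (𝓞 F)), HasN2 (SRS S e) 4 → Indep S e

/-- JOB PQA (assembly for number fields without `i`; uses `S_TBS`, `S_LSS`, `S_FUS`, `S_ATP`, `FG.S_BSE`, `S_G0`, `S_SBM`, `S_LOK`, `S_TRS`, `S_SXX`, `S_SH1`, `S_TRF`, `S_LCP`, `S_RLC`, `FT.S_GDS` and the first part of `FG.S_DCE`;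
template: `Pool.Agent.Q182.FG.flaw` in `Pool/Agent/Q182/FG/FLAW.lean`; you may import `Pool/Agent/Q283/FG/All.lean` (when it is landed) and use its theorems `t_..` instead of hypotheses). The law for the strict Selmer groups.
Proof.  As in `FLAW`: base (`S_BSE`, `S_G0`), classes `c` of the differences (`S_DCE` (1)); `c 1 ≠ c 2`, `c 0 ≠ c 1`, `c 0 + c 2 ≠ e_(t₀)` by `NoFour` as in the proof of `S_DCE` (2) (the exceptional case is not needed).  `𝓛` from `S_LOK` (`Ok.card`: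
`4^f` elements), `𝓛'` from `S_SBM` for `AS S`, `RX`; `S_LSS` for the roots `twi D0 e`: `#𝓛' * 2^N ≤ 4^f`; torsion in `𝓛'`: `S_TRS` with `S_ATP` (4).  `S_FUS` and `S_SXX` (for `𝓛'`): for `q` with table `τ` and `FR y D0 q D`,
`HasN2 (SRS S (twi D e)) 4 ↔ nSelG (djS t₀ c w 𝓛') τ = 4`.  `S_TRF` with `P τ` = (`nSelG .. ≠ 4`), and `S_TBS`.  Uniqueness of `D` up to squares is not needed: `τ` does not depend on `D`. -/
def S_PQA : Prop := ∀ (F : Type) [Field F] [NumberField F] (ζ : F), IsPrimitiveRoot ζ 2 → (∀ x : F, x ^ 2 ≠ -1) →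
  ∀ (t : HeightOneSpectrum (𝓞 F) → F → F → ZMod 2) (s : (F →+* ℝ) → F → F → ZMod 2), Hb ζ t s →
  ∀ e : Fin 3 → F, Rt e → NoFour e → ∃ y0 : ℕ, ∀ y, y0 ≤ y → ∀ D0 : F, D0 ≠ 0 →
  ∀ S : Set (HeightOneSpectrum (𝓞 F)), (∀ v ∈ S, Dp 2 v) → ∀ ε : ℝ, 0 < ε → ∃ k0 : ℕ, ∀ k, k0 ≤ k → Nest k fun X =>
    (Box y X : Set (Fin k → HeightOneSpectrum (𝓞 F))).Finite ∧
    0 < ({q ∈ (Box y X : Set (Fin k → HeightOneSpectrum (𝓞 F))) | ∃ D, FR y D0 q D}.ncard : ℝ) ∧
    ({q ∈ (Box y X : Set (Fin k → HeightOneSpectrum (𝓞 F))) | (∃ D, FR y D0 q D) ∧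
        ¬ ∀ D, FR y D0 q D → HasN2 (SRS S (twi D e)) 4}.ncard : ℝ) ≤
      (2 / 2 ^ (∑ᶠ v : {v : HeightOneSpectrum (𝓞 F) // v ∈ S}, dv 2 v.1) + ε) *
        ({q ∈ (Box y X : Set (Fin k → HeightOneSpectrum (𝓞 F))) | ∃ D, FR y D0 q D}.ncard : ℝ)

/-- JOB PQB (assembly for number fields which contain `i`; template: `Pool.Agent.Q265.FT.flaw` in `Pool/Agent/Q265/FT/FLAW.lean`; import `Pool/Agent/Q283/FT/All.lean` and use `FT.t_G0`, `t_SBM`, `t_LOK`, `t_TRS`, `t_SXX`, `t_DCE`, `t_GDS`,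
`EN.t_TRF`, `EN.t_BASE2`, `EN.t_LOC2`, `EN.t_HS22`; uses `S_TBI`, `S_LSS`, `S_FUS`, `S_ATP`). The law for the strict Selmer groups.
Proof.  As `S_PQA`.  `F` has no real places, `-1` is a square: `FG.FR` is `Fits`, `FG.Nr` is `Nn 2`, `RX` is void, `FG.TX` is `FT.TX`, `FG.CondP` is `FT.CondP`, `FG.Mem` is `FT.Mem`, and the base `Base 2 ζ y f u r π (fun _ _ => 0)` of `FT.t_G0` gives
`Bs ζ y f u r π (fun _ _ => 0)` (same fields); see `Pool/Agent/Q283/FG/MainA.lean` (`no_real`, `fr_iff`, `sr_iff`, `noFour_i`). -/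
def S_PQB : Prop := ∀ (F : Type) [Field F] [NumberField F] (i : F), i ^ 2 = -1 →
  ∀ e : Fin 3 → F, Rt e → NoFour e → ∃ y0 : ℕ, ∀ y, y0 ≤ y → ∀ D0 : F, D0 ≠ 0 →
  ∀ S : Set (HeightOneSpectrum (𝓞 F)), (∀ v ∈ S, Dp 2 v) → ∀ ε : ℝ, 0 < ε → ∃ k0 : ℕ, ∀ k, k0 ≤ k → Nest k fun X =>
    (Box y X : Set (Fin k → HeightOneSpectrum (𝓞 F))).Finite ∧
    0 < ({q ∈ (Box y X : Set (Fin k → HeightOneSpectrum (𝓞 F))) | ∃ D, FR y D0 q D}.ncard : ℝ) ∧
    ({q ∈ (Box y X : Set (Fin k → HeightOneSpectrum (𝓞 F))) | (∃ D, FR y D0 q D) ∧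
        ¬ ∀ D, FR y D0 q D → HasN2 (SRS S (twi D e)) 4}.ncard : ℝ) ≤
      (2 / 2 ^ (∑ᶠ v : {v : HeightOneSpectrum (𝓞 F) // v ∈ S}, dv 2 v.1) + ε) *
        ({q ∈ (Box y X : Set (Fin k → HeightOneSpectrum (𝓞 F))) | ∃ D, FR y D0 q D}.ncard : ℝ)

end Pool.Agent.Q283.PQ
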